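import Pool.Agent.Results.MP_28b024_mp.DiffusionProfile

/-!
# Eigenvectors of the Anderson model on a torus: definitions
-/

set_option autoImplicit false

open scoped BigOperators ComplexConjugate

namespace Pool.Agent.K3h60.TE

/-- the discrete torus `(ℤ/L)^d` -/
abbrev Torus (d L : ℕ) : Type := Fin d → ZMod L

/-- `-Δ + λ V` on the torus -/
noncomputable def HTor {d L : ℕ} (lam : ℝ) (V : Torus d L → ℝ) (f : Torus d L → ℂ)
    (x : Torus d L) : ℂ :=
  -∑ i : Fin d, ((f (x + Pi.single i 1) - f x) + (f (x - Pi.single i 1) - f x)) +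
    ((lam * V x : ℝ) : ℂ) * f x

/-- the potential `ω` of the box `{0, ..., L-1}^d`, wrapped around the torus -/
def wrap {d : ℕ} (L : ℕ) (ω : (Fin d → ℤ) → ℝ) (x : Torus d L) : ℝ :=
  ω fun i => ((x i).val : ℤ)

/-- `ψ j`, `j : ι`, is an orthonormal basis of `ℓ²` of the torus and `ψ j` is an eigenvector of
`-Δ + λ V` with eigenvalue `E j` -/
structure IsEigenbasis {d L : ℕ} [NeZero L] {ι : Type} [Fintype ι] [DecidableEq ι] (lam : ℝ)
    (V : Torus d L → ℝ) (ψ : ι → Torus d L → ℂ) (E : ι → ℝ) : Prop where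
  orthonormal : ∀ i j, ∑ x, conj (ψ i x) * ψ j x = if i = j then 1 else 0
  complete : Fintype.card ι = Fintype.card (Torus d L)
  eigen : ∀ j x, HTor lam V (ψ j) x = (E j : ℂ) * ψ j x

/-- the mass of `ψ` in the slab of half-width `ℓ` around the hyperplane `x_i = y` (distances on the
circle `ℤ/L`) -/
noncomputable def slabMass {d L : ℕ} [NeZero L] (ψ : Torus d L → ℂ) (i : Fin d) (y : ZMod L)
    (ℓ : ℝ) : ℝ :=
  ∑ x : Torus d L, if |((x i - y).valMinAbs : ℝ)| ≤ ℓ then ‖ψ x‖ ^ 2 else 0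

open Classical in
/-- the number of indices `j` with `|E j - e| ≤ w` -/
noncomputable def levels {ι : Type} [Fintype ι] (E : ι → ℝ) (e w : ℝ) : ℕ :=
  (Finset.univ.filter fun j => |E j - e| ≤ w).card

open Classical in
/-- the number of indices `j` with `|E j - e| ≤ w` such that `ψ j` has at least the fraction `ε` of
its mass in some slab of half-width `ℓ` perpendicular to the `i`-th axis -/
noncomputable def confined {d L : ℕ} [NeZero L] {ι : Type} [Fintype ι] (ψ : ι → Torus d L → ℂ)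
    (E : ι → ℝ) (e w : ℝ) (i : Fin d) (ε ℓ : ℝ) : ℕ :=
  (Finset.univ.filter fun j => |E j - e| ≤ w ∧ ∃ y : ZMod L, ε ≤ slabMass (ψ j) i y ℓ).card

end Pool.Agent.K3h60.TE
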