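import Pool.Agent.R988.Loc2
import Pool.Agent.R988.Base

/-! Numerical facts for small coupling. -/

set_option autoImplicit false

open scoped BigOperators Topology
open MeasureTheory Filter Set

namespace Pool.Agent.K3h60.TE

open Pool.Agent.R988.Tor (ev1 ev_extract)

/-- all the smallness conditions on the coupling -/
theorem num (d : ℕ) (c0 K v A D : ℝ) (hc0 : 0 < c0) (hK : 0 < K) (hv : 0 < v)
    (hA : 0 < A) :
    ∃ l0 : ℝ, 0 < l0 ∧ l0 ≤ 1 ∧ ∀ lam : ℝ, 0 < lam → lam ≤ l0 →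
      lam ≤ c0 ∧ lam ^ (1 / 200 : ℝ) ≤ A / 2 ∧
      lam ^ (1 / 2 : ℝ) * (40960 * d) ≤ A / 2 ∧
      D ≤ lam ^ (-(9 : ℝ)) * (K * v) ∧
      4 ≤ lam ^ (-(7 : ℝ)) ∧
      (2 * (d : ℝ) + 3) * lam ^ (-(1 / 102) : ℝ) ≤ lam ^ (-(1 / 101) : ℝ) := by
  obtain ⟨l0, hl0, hl1, hl⟩ := ev_extract
    ((ev1 (1 / c0) 1 one_pos).and
    ((ev1 (2 / A) (1 / 200) (by norm_num)).and
    ((ev1 (2 / A * (40960 * d)) (1 / 2) (by norm_num)).and
    ((ev1 (D / (K * v)) 9 (by norm_num)).and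
    ((ev1 4 7 (by norm_num)).and
    (ev1 (2 * (d : ℝ) + 3) (1 / 10302) (by norm_num)))))))
  refine ⟨l0, hl0, hl1, fun lam h0 hle => ?_⟩
  obtain ⟨n1, n2, n3, n4, n5, n6⟩ := hl lam h0 hle
  have hKv : 0 < K * v := mul_pos hK hv
  refine ⟨?_, ?_, ?_, ?_, ?_, ?_⟩
  · rw [Real.rpow_one, one_div, inv_mul_le_iff₀ hc0, mul_one] at n1
    exact n1
  · rw [div_mul_eq_mul_div, div_le_one hA] at n2
    linarith
  · have h1 : 2 / A * (40960 * (d : ℝ)) * lam ^ (1 / 2 : ℝ) =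
        2 * (lam ^ (1 / 2 : ℝ) * (40960 * d)) / A := by ring
    rw [h1, div_le_one hA] at n3
    linarith
  · rw [Real.rpow_neg h0.le]
    have hp : 0 < lam ^ (9 : ℝ) := Real.rpow_pos_of_pos h0 _
    rw [div_mul_eq_mul_div, div_le_one hKv] at n4
    rw [inv_mul_eq_div, le_div_iff₀ hp]
    exact n4
  · rw [Real.rpow_neg h0.le]
    have hp : 0 < lam ^ (7 : ℝ) := Real.rpow_pos_of_pos h0 _
    rw [← one_div, le_div_iff₀ hp]
    exact n5
  · have hp : 0 < lam ^ (-(1 / 101) : ℝ) := Real.rpow_pos_of_pos h0 _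
    have h2 : lam ^ (-(1 / 102) : ℝ) = lam ^ (1 / 10302 : ℝ) * lam ^ (-(1 / 101) : ℝ) := by
      rw [← Real.rpow_add h0]
      norm_num
    rw [h2, ← mul_assoc]
    calc _ ≤ 1 * lam ^ (-(1 / 101) : ℝ) := mul_le_mul_of_nonneg_right n6 hp.le
      _ = _ := one_mul _

/-- the union bound costs little -/
theorem prob_num (d N : ℕ) (lam : ℝ) (h0 : 0 < lam) (h1 : lam ≤ 1)
    (hN : (N : ℝ) ≤ Real.exp (lam ^ (-(1 / 103) : ℝ)))
    (h : (2 * (d : ℝ) + 3) * lam ^ (-(1 / 102) : ℝ) ≤ lam ^ (-(1 / 101) : ℝ)) :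
    ((N : ℝ) + 1) ^ (d + 1) * Real.exp (-lam ^ (-(1 / 101) : ℝ)) ≤
      Real.exp (-lam ^ (-(1 / 102) : ℝ)) := by
  have e1 : (1 : ℝ) ≤ lam ^ (-(1 / 103) : ℝ) :=
    Real.one_le_rpow_of_pos_of_le_one_of_nonpos h0 h1 (by norm_num)
  have e2 : lam ^ (-(1 / 103) : ℝ) ≤ lam ^ (-(1 / 102) : ℝ) :=
    Real.rpow_le_rpow_of_exponent_ge h0 h1 (by norm_num)
  have e3 : (N : ℝ) + 1 ≤ Real.exp (2 * lam ^ (-(1 / 103) : ℝ)) := by
    rw [two_mul, Real.exp_add]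
    have h3 : 2 ≤ Real.exp (lam ^ (-(1 / 103) : ℝ)) := by
      have := Real.add_one_le_exp (lam ^ (-(1 / 103) : ℝ))
      linarith
    nlinarith
  have e4 : ((N : ℝ) + 1) ^ (d + 1) ≤ Real.exp (2 * ((d : ℝ) + 1) * lam ^ (-(1 / 102) : ℝ)) := by
    calc ((N : ℝ) + 1) ^ (d + 1) ≤ Real.exp (2 * lam ^ (-(1 / 103) : ℝ)) ^ (d + 1) := by
          gcongr
      _ = Real.exp (((d + 1 : ℕ) : ℝ) * (2 * lam ^ (-(1 / 103) : ℝ))) := by
          rw [Real.exp_nat_mul]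
      _ ≤ _ := by
          apply Real.exp_le_exp.2
          push_cast
          nlinarith [Nat.cast_nonneg (α := ℝ) d]
  calc ((N : ℝ) + 1) ^ (d + 1) * Real.exp (-lam ^ (-(1 / 101) : ℝ)) ≤
      Real.exp (2 * ((d : ℝ) + 1) * lam ^ (-(1 / 102) : ℝ)) *
        Real.exp (-lam ^ (-(1 / 101) : ℝ)) := by gcongr
    _ = Real.exp (2 * ((d : ℝ) + 1) * lam ^ (-(1 / 102) : ℝ) + -lam ^ (-(1 / 101) : ℝ)) := by
        rw [Real.exp_add]
    _ ≤ _ := by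
        apply Real.exp_le_exp.2
        linarith

/-- the variance of a law on `[-b, b]` -/
theorem var_le (μ : Measure ℝ) [IsProbabilityMeasure μ] (b M V : ℝ) (hb : 0 < b)
    (h : ∀ᵐ s ∂μ, |s| ≤ b) (hM : ∫ s, s ∂μ = M) (hV : ∫ s, (s - M) ^ 2 ∂μ = V) :
    V ≤ 4 * b ^ 2 := by
  have hMb : |M| ≤ b := by
    rw [← hM, ← Real.norm_eq_abs]
    have h1 := norm_integral_le_of_norm_le_const (μ := μ) (f := fun s : ℝ => s) (C := b)
      (h.mono fun s hs => by rw [Real.norm_eq_abs]; exact hs)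
    simpa using h1
  rw [← hV]
  have h1 := norm_integral_le_of_norm_le_const (μ := μ) (f := fun s : ℝ => (s - M) ^ 2)
    (C := 4 * b ^ 2) (h.mono fun s hs => by
      rw [Real.norm_eq_abs, abs_of_nonneg (sq_nonneg _)]
      have h2 : |s - M| ≤ 2 * b := by
        rw [abs_le] at hs hMb ⊢
        constructor <;> linarith
      rw [← sq_abs]
      nlinarith [abs_nonneg (s - M)])
  have h3 := le_abs_self (∫ s, (s - M) ^ 2 ∂μ)
  rw [← Real.norm_eq_abs] at h3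
  refine h3.trans ?_
  simpa using h1

end Pool.Agent.K3h60.TE
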