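import Pool.Agent.K3h60.TE.Defs
import Pool.Agent.K3h60.TE.Num

/-! Most eigenvectors on the torus are spread out beyond the kinetic scale. -/

set_option autoImplicit false
set_option linter.unusedVariables false

open scoped BigOperators ComplexConjugate Topology
open MeasureTheory Filter Set

namespace Pool.Agent.K3h60.TE

open Pool.Agent.R988.Tor
open Pool.Agent.H4R2.LO (Zd)
open Pool.Agent.TH794.HK (ph Tg)
open Pool.Agent.TH794.QE (Rs rs_exists RegE)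

theorem eb_of {d L : ℕ} [NeZero L] {ι : Type} [Fintype ι] [DecidableEq ι] {lam : ℝ}
    {ω : (Fin d → ℤ) → ℝ} {ψ : ι → Torus d L → ℂ} {E : ι → ℝ}
    (h : IsEigenbasis lam (wrap L ω) ψ E) :
    EB (fun x => 2 * d + lam * ω (em x)) ψ E := by
  refine ⟨h.orthonormal, h.complete, fun j x => ?_⟩
  rw [← h.eigen j x]
  unfold HTor wrap TS Pool.Agent.R988.Tor.em
  have h2 : ∑ i : Fin d, ((ψ j (x + Pi.single i 1) - ψ j x) + (ψ j (x - Pi.single i 1) - ψ j x)) =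
      ∑ i : Fin d, (ψ j (x + Pi.single i 1) + ψ j (x - Pi.single i 1)) -
        2 * (d : ℂ) * ψ j x := by
    rw [Finset.sum_add_distrib, Finset.sum_sub_distrib, Finset.sum_sub_distrib,
      Finset.sum_add_distrib]
    simp
    ring
  rw [h2]
  push_cast
  ring

/-- **main theorem** -/
theorem main (d : ℕ) (hd : 2 ≤ d) (κ : ℝ) (hκ : 0 < κ) (hκ1 : κ ≤ 1) :
    ∃ c : ℝ, 0 < c ∧ ∀ b v ε θ : ℝ, 0 < b → 0 < v → 0 < ε → 0 < θ →
    ∃ ρ lam0 : ℝ, 0 < ρ ∧ 0 < lam0 ∧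
      ∀ (μ : Measure ℝ) [IsProbabilityMeasure μ], (∀ᵐ s ∂μ, |s| ≤ b) →
      ∀ M V : ℝ, ∫ s, s ∂μ = M → ∫ s, (s - M) ^ 2 ∂μ = V → v ≤ V →
      ∀ lam : ℝ, 0 < lam → lam ≤ lam0 →
      ∃ G : Set ((Fin d → ℤ) → ℝ), MeasurableSet G ∧
        1 - Real.exp (-lam ^ (-(1 / 102) : ℝ)) ≤
          (Measure.infinitePi fun _ : Fin d → ℤ => μ).real G ∧
        ∀ ω ∈ G, ∀ (L : ℕ) [NeZero L], lam ^ (-7 : ℝ) ≤ L →
          (L : ℝ) ≤ Real.exp (lam ^ (-(1 / 103) : ℝ)) →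
          ∀ (ι : Type) [Fintype ι] [DecidableEq ι] (ψ : ι → Torus d L → ℂ) (E : ι → ℝ),
            IsEigenbasis lam (wrap L ω) ψ E →
            ∀ e : ℝ, κ + lam * M ≤ e → e ≤ 4 * d - κ + lam * M →
              (d = 2 → κ ≤ |4 + lam * M - e|) →
            ∀ w : ℝ, 8 * lam ^ (81 / 40 : ℝ) ≤ w → w ≤ lam ^ (161 / 80 : ℝ) →
              c * w * (L : ℝ) ^ d ≤ levels E e w ∧
              ∀ i : Fin d, (confined ψ E e w i ε (ρ / (lam * Real.sqrt w)) : ℝ) ≤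
                θ * w * (L : ℝ) ^ d := by
  obtain ⟨γ0, γ1, hb0⟩ := Pool.Agent.R988.base d hd
  obtain ⟨h1, ⟨m, hm, h2⟩, h3⟩ := hb0 κ hκ hκ1
  obtain ⟨C0, hC0, hup⟩ := Pool.Agent.R988.up d hd κ hκ hκ1
  refine ⟨m / 16, by positivity, fun b v ε θ hb hv hε hθ => ?_⟩
  obtain ⟨τ, hτ⟩ : ∃ τ, τ = θ * ε ^ 2 / 16 := ⟨_, rfl⟩
  have hτ0 : 0 < τ := by rw [hτ]; positivity
  obtain ⟨t, ht⟩ : ∃ t, t = τ / (16 * C0) := ⟨_, rfl⟩
  have ht0 : 0 < t := by rw [ht]; positivity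
  obtain ⟨K, hK⟩ : ∃ K, K = 16 * C0 ^ 3 / (τ * (t ^ 2 * m)) := ⟨_, rfl⟩
  have hK0 : 0 < K := by rw [hK]; positivity
  obtain ⟨c0, hc0, h4⟩ := h3 b v K hb hv hK0.le
  obtain ⟨l0, hl0, hl1, hnum⟩ := num d c0 K v (min (τ / 4) (m / 5))
    ((2 * Real.pi) ^ 2 * (1 + 4 * C0 / τ) ^ 2) hc0 hK0 hv (by positivity)
  have hsK : 0 < Real.sqrt K := Real.sqrt_pos.2 hK0
  refine ⟨1 / (4 * b * Real.sqrt K), l0, by positivity, hl0, ?_⟩
  intro μ hμ hμb M V hM hV hvV lam hlam hlaml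
  obtain ⟨n1, n2, n3, n4, n5, n6⟩ := hnum lam hlam hlaml
  have hlam1 : lam ≤ 1 := hlaml.trans hl1
  have hV0 : 0 < V := hv.trans_le hvV
  have hVb := var_le μ b M V hb hμb hM hV
  obtain ⟨G0, hG0, hP0, hL0⟩ := h4 lam hlam n1 μ hμ hμb M V hM hV hvV
  obtain ⟨G, hG, hP, hL⟩ := union μ G0 hG0 (Real.exp (-lam ^ (-(1 / 101) : ℝ)))
    (Real.exp_pos _).le hP0 ⌊Real.exp (lam ^ (-(1 / 103) : ℝ))⌋₊
  refine ⟨G, hG, ?_, ?_⟩
  · have h5 := prob_num d ⌊Real.exp (lam ^ (-(1 / 103) : ℝ))⌋₊ lam hlam hlam1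
      (Nat.floor_le (Real.exp_pos _).le) n6
    linarith
  intro ω hω L _ hL1 hL2 ι _ _ ψ E hψ e he1 he2 hed w hw1 hw2
  obtain ⟨hω0, hωs⟩ := hL ω hω
  have hωs' := hωs L (Nat.le_floor hL2)
  have hωb := (hL0 ω hω0).1
  have hLp : 0 < L := Nat.pos_of_ne_zero (NeZero.ne L)
  have hLR : (0 : ℝ) < L := by exact_mod_cast hLp
  have hL4 : (4 : ℝ) ≤ L := n5.trans hL1
  -- the energy
  have hReg : RegE d κ (2 * d + lam * M - e) := by
    rcases Nat.lt_or_ge d 3 with h | h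
    · left
      have hd2 : d = 2 := by omega
      subst hd2
      refine ⟨rfl, ?_, ?_⟩
      · have := hed rfl
        push_cast
        norm_num
        exact this
      · rw [abs_le]
        push_cast at he2 ⊢
        constructor <;> linarith
    · right
      refine ⟨h, ?_⟩
      have h6 : (3 : ℝ) ≤ d := by exact_mod_cast h
      rw [abs_le]
      constructor <;> linarith
  have hEe : |2 * (d : ℝ) + lam * M - e| ≤ 2 * d - κ := by
    rw [abs_le]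
    constructor <;> linarith
  have hlim := h1 _ hReg
  have hm1 := h2 _ hReg hEe
  have hC1 : (γ0 (2 * d + lam * M - e)).im ≤ C0 :=
    (Complex.im_le_norm _).trans (hup _ _ hReg hlim.1)
  -- the scales
  have hla : 0 < lam ^ (81 / 40 : ℝ) := Real.rpow_pos_of_pos hlam _
  have hw0 : 0 < w := by linarith
  have hw1' : w ≤ 1 := hw2.trans (Real.rpow_le_one hlam.le hlam1 (by norm_num))
  have hsw : 0 < Real.sqrt w := Real.sqrt_pos.2 hw0
  have hs2 : 0 < lam ^ 2 * V := by positivity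
  -- the centre of the box
  obtain ⟨cc, hcc⟩ : ∃ cc : Zd d, cc = fun _ => ((L / 2 : ℕ) : ℤ) := ⟨_, rfl⟩
  have hccv : ∀ i, ((cc i : ℤ) : ℝ) = ((L / 2 : ℕ) : ℝ) := by
    intro i
    rw [hcc]
    exact Int.cast_natCast _
  have hcc1 : ∀ i, (L : ℝ) / 2 - 1 ≤ cc i ∧ (L : ℝ) / 2 - 1 + 1 ≤ L - cc i := by
    intro i
    rw [hccv i]
    have h7 : (L : ℝ) ≤ 2 * ((L / 2 : ℕ) : ℝ) + 1 := by
      have : L ≤ 2 * (L / 2) + 1 := by omega
      exact_mod_cast this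
    have h8 : 2 * ((L / 2 : ℕ) : ℝ) ≤ L := by
      have : 2 * (L / 2) ≤ L := by omega
      exact_mod_cast this
    constructor <;> linarith
  have hccn : ‖cc‖ ≤ Real.exp (lam ^ (-(1 / 101) : ℝ)) := by
    have h9 : ‖cc‖ ≤ L := by
      rw [pi_norm_le_iff_of_nonneg hLR.le]
      intro i
      rw [Int.norm_eq_abs, hccv i, abs_of_nonneg (Nat.cast_nonneg _)]
      exact_mod_cast Nat.div_le_self L 2
    refine (h9.trans hL2).trans (Real.exp_le_exp.2 ?_)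
    exact Real.rpow_le_rpow_of_exponent_ge hlam hlam1 (by norm_num)
  have hlaw : ∀ η, η = w ∨ η = w / 8 → ∀ (s : TT d L) (u : Zd d → ℂ),
      Rs d (fun x => 2 * d + lam * ω (cycE s x)) cc e η u →
      ∀ p : Fin d → ℝ, ∑ i, p i ^ 2 ≤ K * (η * (lam ^ 2 * V)) →
      ‖((η : ℝ) : ℂ) * ∑' x, ph p (x - cc) * ((‖u x‖ ^ 2 : ℝ) : ℂ) -
        ((Tg γ0 γ1 η (lam ^ 2 * V) (2 * d + lam * M - e) p : ℝ) : ℂ)‖ ≤ lam ^ (1 / 200 : ℝ) := by
    intro η hη s u hu p hp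
    refine (hL0 _ (hωs' s)).2 cc hccn e ⟨hReg, hEe⟩ η ?_ ?_ u hu p hp
    · rcases hη with h | h <;> rw [h] <;> linarith
    · rcases hη with h | h
      · rw [h]; exact hw2
      · rw [h]; linarith
  -- the errors
  have herr : lam ^ (1 / 200 : ℝ) + 10240 * d * (w⁻¹) ^ 3 / ((L : ℝ) / 2 - 1) ≤
      min (τ / 4) (m / 5) := by
    have h10 : (w⁻¹) ^ 3 ≤ lam ^ (-(243 / 40) : ℝ) := by
      have h11 : w⁻¹ ≤ lam ^ (-(81 / 40) : ℝ) := by
        rw [Real.rpow_neg hlam.le]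
        exact inv_anti₀ hla (by linarith)
      calc (w⁻¹) ^ 3 ≤ (lam ^ (-(81 / 40) : ℝ)) ^ 3 := by
            gcongr
        _ = lam ^ (-(243 / 40) : ℝ) := by
            rw [← Real.rpow_natCast, ← Real.rpow_mul hlam.le]
            norm_num
    have h12 : (L : ℝ) / 4 ≤ (L : ℝ) / 2 - 1 := by linarith
    have h13 : 10240 * d * (w⁻¹) ^ 3 / ((L : ℝ) / 2 - 1) ≤
        40960 * d * lam ^ (-(243 / 40) : ℝ) / L := by
      rw [div_le_div_iff₀ (by linarith) hLR]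
      have h14 : (0 : ℝ) ≤ d * lam ^ (-(243 / 40) : ℝ) := by positivity
      have h15 : 10240 * (d : ℝ) * (w⁻¹) ^ 3 * L ≤ 10240 * (d * lam ^ (-(243 / 40) : ℝ)) * L := by
        have : (d : ℝ) * (w⁻¹) ^ 3 ≤ d * lam ^ (-(243 / 40) : ℝ) := by gcongr
        nlinarith
      nlinarith
    have h16 : 40960 * d * lam ^ (-(243 / 40) : ℝ) / L ≤ lam ^ (1 / 2 : ℝ) * (40960 * d) := by
      rw [div_le_iff₀ hLR]
      have h17 : lam ^ (-(243 / 40) : ℝ) ≤ lam ^ (1 / 2 : ℝ) * L := by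
        calc lam ^ (-(243 / 40) : ℝ) ≤ lam ^ (-(13 / 2) : ℝ) :=
              Real.rpow_le_rpow_of_exponent_ge hlam hlam1 (by norm_num)
          _ = lam ^ (1 / 2 : ℝ) * lam ^ (-7 : ℝ) := by
              rw [← Real.rpow_add hlam]
              norm_num
          _ ≤ _ := by gcongr
      have hdd : (0 : ℝ) ≤ 40960 * d := by positivity
      nlinarith
    linarith
  have hsq7 : lam ^ (-(9 : ℝ)) * (K * v) ≤ (L : ℝ) ^ 2 * (K * (w * (lam ^ 2 * V))) := by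
    have h18 : lam ^ (-(9 : ℝ)) ≤ (L : ℝ) ^ 2 * (w * lam ^ 2) := by
      have h19 : lam ^ (-(14 : ℝ)) ≤ (L : ℝ) ^ 2 := by
        calc lam ^ (-(14 : ℝ)) = (lam ^ (-7 : ℝ)) ^ 2 := by
              rw [← Real.rpow_natCast, ← Real.rpow_mul hlam.le]
              norm_num
          _ ≤ _ := by gcongr
      have h20 : lam ^ (81 / 40 : ℝ) * lam ^ 2 ≤ w * lam ^ 2 := by
        gcongr
        linarith
      calc lam ^ (-(9 : ℝ)) ≤ lam ^ (-(14 : ℝ) + (81 / 40 + 2)) :=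
            Real.rpow_le_rpow_of_exponent_ge hlam hlam1 (by norm_num)
        _ = lam ^ (-(14 : ℝ)) * (lam ^ (81 / 40 : ℝ) * lam ^ 2) := by
            rw [Real.rpow_add hlam, Real.rpow_add hlam]
            norm_num
        _ ≤ _ := by gcongr
    calc lam ^ (-(9 : ℝ)) * (K * v) ≤ ((L : ℝ) ^ 2 * (w * lam ^ 2)) * (K * V) := by gcongr
      _ = _ := by ring
  have hdet := det (by omega : 0 < d) lam b hlam hωb cc ((L : ℝ) / 2 - 1) (by linarith) hcc1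
    e w (lam ^ 2 * V) hw0 hw1' hs2 γ0 γ1 (2 * d + lam * M - e) C0 m K (lam ^ (1 / 200 : ℝ))
    hm hC1 hm1 hlim.2.2.2 hK0 hlaw ε t τ (1 / (4 * b * Real.sqrt K) / (lam * Real.sqrt w)) hε ht0 hτ0
    (by
      rw [ht]
      field_simp
      exact le_refl _)
    (by
      rw [hK]
      field_simp
      exact le_refl _)
    (herr.trans (min_le_left _ _)) (herr.trans (min_le_right _ _))
    (by
      have h21 : K * (w * (lam ^ 2 * V)) * (2 * (1 / (4 * b * Real.sqrt K) /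
          (lam * Real.sqrt w))) ^ 2 = V / (4 * b ^ 2) := by
        have e1 : Real.sqrt K ^ 2 = K := Real.sq_sqrt hK0.le
        have e2 : Real.sqrt w ^ 2 = w := Real.sq_sqrt hw0.le
        field_simp
        rw [e1, e2]
        ring
      rw [h21, div_le_one (by positivity)]
      exact hVb)
    (n4.trans hsq7) (eb_of hψ)
  have hcard : ((Fintype.card (TT d L) : ℕ) : ℝ) = (L : ℝ) ^ d := by
    rw [Fintype.card_fun, ZMod.card, Fintype.card_fin]
    push_cast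
    rfl
  rw [hcard] at hdet
  refine ⟨?_, fun i => ?_⟩
  · have h22 := hdet.1
    unfold levels
    convert h22 using 4
  · have h23 := hdet.2 i
    have h24 : (confined ψ E e w i ε (1 / (4 * b * Real.sqrt K) / (lam * Real.sqrt w)) : ℝ) *
        ε ^ 2 ≤ 16 * w * (L : ℝ) ^ d * τ := by
      unfold confined slabMass
      convert h23 using 4
    rw [hτ] at h24
    have hε2 : 0 < ε ^ 2 := by positivity
    have h25 : (confined ψ E e w i ε (1 / (4 * b * Real.sqrt K) / (lam * Real.sqrt w)) : ℝ) *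
        ε ^ 2 ≤ (θ * w * (L : ℝ) ^ d) * ε ^ 2 := by
      refine h24.trans (le_of_eq ?_)
      ring
    exact le_of_mul_le_mul_right h25 hε2

end Pool.Agent.K3h60.TE
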